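import Mathlib

set_option autoImplicit false

open Filter Topology

namespace Pool.Agent.T3h43.AC

/-- `C σ^p log(1/σ)^q` is small. -/
theorem tl (C p : ℝ) (hp : 0 < p) (q : ℕ) :
    ∀ᶠ σ : ℝ in 𝓝[>] 0, C * σ ^ p * Real.log (1 / σ) ^ q ≤ 1 := by
  have h1 : Tendsto (fun x : ℝ => C * (Real.log x ^ q * x ^ (-p))) atTop (𝓝 0) := by
    have h2 : Tendsto (fun x : ℝ => Real.log x ^ (q : ℝ) / x ^ p) atTop (𝓝 0) :=
      (isLittleO_log_rpow_rpow_atTop (q : ℝ) hp).tendsto_div_nhds_zero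
    have h3 := h2.const_mul C
    rw [mul_zero] at h3
    refine h3.congr' ?_
    filter_upwards [eventually_gt_atTop 1] with x hx
    rw [Real.rpow_natCast, Real.rpow_neg (by linarith), div_eq_mul_inv]
  have h4 : Tendsto (fun σ : ℝ => 1 / σ) (𝓝[>] 0) atTop := by
    simpa using tendsto_inv_nhdsGT_zero (𝕜 := ℝ)
  have h5 := h1.comp h4
  have h6 := (h5.eventually (ge_mem_nhds (show (0 : ℝ) < 1 by norm_num)))
  filter_upwards [h6, self_mem_nhdsWithin] with σ h hs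
  have hs' : (0 : ℝ) < σ := hs
  simp only [Function.comp] at h
  have e : (1 / σ) ^ (-p) = σ ^ p := by
    rw [one_div, Real.inv_rpow hs'.le, Real.rpow_neg hs'.le, inv_inv]
  rw [e] at h
  calc C * σ ^ p * Real.log (1 / σ) ^ q = C * (Real.log (1 / σ) ^ q * σ ^ p) := by ring
    _ ≤ 1 := h

theorem tlog (B : ℝ) : ∀ᶠ σ : ℝ in 𝓝[>] 0, B ≤ Real.log (1 / σ) := by
  have h4 : Tendsto (fun σ : ℝ => 1 / σ) (𝓝[>] 0) atTop := by
    simpa using tendsto_inv_nhdsGT_zero (𝕜 := ℝ)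
  exact (Real.tendsto_log_atTop.comp h4).eventually_ge_atTop B

end Pool.Agent.T3h43.AC
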