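import Pool.Agent.T3h43.AC.Num0

set_option autoImplicit false

open Filter Topology

namespace Pool.Agent.T3h43.AC

theorem mk {σ Λ C p r t : ℝ} {q : ℕ} (hσ : 0 < σ) (h : C * σ ^ p * Λ ^ q ≤ 1) (ht : t = p + r) :
    C * σ ^ t * Λ ^ q ≤ σ ^ r := by
  have h1 : 0 < σ ^ r := Real.rpow_pos_of_pos hσ r
  have h2 := mul_le_mul_of_nonneg_right h h1.le
  rw [one_mul] at h2
  calc C * σ ^ t * Λ ^ q = C * σ ^ p * Λ ^ q * σ ^ r := by rw [ht, Real.rpow_add hσ]; ring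
    _ ≤ σ ^ r := h2

theorem x1 {s Λ l : ℝ} (hs : 0 < s) (hs1 : s ≤ 1 / 100) (hl : l < 3.5) (h8 : 8 ≤ Λ) :
    Λ ≤ (2 - s) * (Λ - l) := by nlinarith

theorem x2 {s Λ l : ℝ} (hs : 0 < s) (hl : 0 < l) (hl' : l < 3.5) (h8 : 8 ≤ Λ) :
    (2 - s) * (Λ - l) ≤ 2 * Λ := by nlinarith

theorem x3 {C Λ : ℝ} (hL : 1 ≤ Λ) (h : 1 / C ≤ Λ) (hC : 0 < C) : 1 ≤ C * Λ ^ 2 := by
  rw [div_le_iff₀ hC] at h
  nlinarith

theorem x4 {a b : ℝ} (ha : a ≤ 1) (hb : 0 < b) : a * b ≤ b := by nlinarith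

theorem x5 {a Λ X C : ℝ} (ha : 1 ≤ a) (hΛ : 1 ≤ Λ) (hX : Λ ^ 7 ≤ X) (hC : 0 < C)
    (h : 1 / C ≤ Λ) : 1 ≤ C * (a * X) := by
  have e1 : 1 ≤ C * Λ := by rw [div_le_iff₀ hC] at h; linarith
  have e2 : Λ ≤ Λ ^ 7 := le_self_pow₀ hΛ (by norm_num)
  have e3 : Λ ≤ a * X := by nlinarith
  have e4 := mul_le_mul_of_nonneg_left e3 hC.le
  linarith

theorem x6 {h κ s : ℝ} (hh : 0 < h) (hκ0 : 0 ≤ κ) (hs : 0 < s)
    (hs2 : 100 * s ≤ 2 - 2 * κ - 6 * h) :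
    0 < 2 - κ * (2 - s) - 6 * s - 4 * h - 2 * h - 2 * s := by nlinarith

theorem x7 {g G x : ℝ} (h : g ≤ G) (hx : 0 ≤ x) : 32 * g * x ≤ 32 * G * x := by nlinarith

theorem x8 {g G x : ℝ} (h : g ≤ G) (hx : 0 ≤ x) : 100 * g * x ≤ 100 * G * x := by nlinarith

/-- the numerical facts -/
theorem num_aux (d : ℕ) (hd : 3 ≤ d) (h κ s : ℝ) (hh : 0 < h) (hκ : κ = 0 ∨ κ = 1 / 2)
    (hs : 0 < s) (hs1 : s ≤ 1 / 100) (hs2 : 100 * s ≤ 2 - 2 * κ - 6 * h)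
    (C1 C2 C3 ζ a1 : ℝ) (hC1 : 0 < C1) (hC2 : 0 < C2) (hC3 : 0 < C3) (hζ : 0 < ζ) (hζ1 : ζ ≤ 1)
    (ha : 0 < a1) : ∀ᶠ σ : ℝ in 𝓝[>] 0, ∀ (b0 : ℕ), (b0 : ℝ) ≤ σ ^ (-(4 * d : ℝ)) →
    ∀ δ ε c g Q z : ℝ, δ = (32 * σ) ^ (2 - s) →
    ε = a1 * σ ^ (6 + 2 * h) / (1600 * δ ^ 2) → c = ε * δ ^ 2 / (25 * d ^ 2) →
    g = C2 * Real.log (1 / (a1 * σ ^ 2)) ^ 2 → Q = C1 * (δ ^ (-κ) * Real.log (1 / δ) ^ 7) →
    z = ζ / g →
    (0 < σ ∧ σ ≤ 1 ∧ 1 ≤ Q ∧ 1 ≤ g ∧ 0 < z ∧ z ≤ 1 ∧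
    10 ^ 5 * (σ ^ 2 * Q * (δ / ε) ^ 2) ≤ 1 ∧
    10 ^ 9 * (σ ^ 2 * Q * (δ / ε) ^ 2) * (σ ^ 2 / ε) * g ^ 3 ≤ z ^ 2 ∧
    10 ^ 9 * (b0 + 1 : ℝ) ^ 5 * Real.sqrt (σ ^ (40 * d + 400 : ℕ)) ≤ (c * ε * z) ^ 12) ∧
    δ ≤ 1 / 2 ∧ ε ≤ δ ∧ c ≤ 1 ∧ a1 * σ ^ 2 ≤ δ ∧
    100 * (C3 * σ ^ (2 + 2 * h)) * g ≤ σ ^ 2 * ζ ∧ 32 * (C3 * σ ^ (2 + 2 * h)) ≤ δ ∧
    32 * g * σ ^ 2 ≤ δ ∧ 100 * g * σ ≤ ζ := by
  have hκ0 : 0 ≤ κ := by rcases hκ with h | h <;> rw [h] <;> norm_num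
  have hκ1 : κ ≤ 1 / 2 := by rcases hκ with h | h <;> rw [h] <;> norm_num
  have hh1 : h ≤ 1 / 3 := by linarith
  set D : ℝ := 32 ^ (2 - s) with hD
  have hD1 : 1 ≤ D := Real.one_le_rpow (by norm_num) (by linarith)
  have hD0 : 0 < D := by linarith
  set E0 : ℝ := a1 / (1600 * D ^ 2) with hE0
  have hE : 0 < E0 := by positivity
  have hdR : (3 : ℝ) ≤ d := by exact_mod_cast hd
  set c0 : ℝ := a1 / (40000 * (d : ℝ) ^ 2) with hc0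
  have hc : 0 < c0 := by positivity
  set p1 : ℝ := 2 - κ * (2 - s) - 6 * s - 4 * h with hp1
  have hp1' : 0 < p1 - 2 * h - 2 * s := x6 hh hκ0 hs hs2
  have hp1'' : 0 < p1 := by linarith
  set A1 : ℝ := 128 * C1 * (D / E0) ^ 2 with hA1
  have hA1' : 0 < A1 := by positivity
  set A2 : ℝ := A1 * E0⁻¹ with hA2
  have hA2' : 0 < A2 := by positivity
  set M : ℝ := c0 * E0 * ζ / (9 * C2) with hM
  have hM' : 0 < M := by positivity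
  filter_upwards [self_mem_nhdsWithin, tlog (max (max 8 |Real.log a1|) (max (1 / C1) (1 / C2))),
    tl (10 ^ 5 * A1) p1 hp1'' 7, tl (10 ^ 9 * A2 * (9 * C2) ^ 5 / ζ ^ 2) _ hp1' 17,
    tl (10 ^ 9 * 32 * (M ^ 12)⁻¹) (104 - 48 * h - 24 * s) (by linarith) 24,
    tl (2 * D) (2 - s) (by linarith) 0, tl (E0 / D) (2 * h + 3 * s) (by linarith) 0,
    tl c0 (6 + 2 * h) (by linarith) 0, tl (a1 / D) s hs 0,
    tl (900 * C3 * C2 / ζ) (2 * h) (by linarith) 2, tl (32 * C3 / D) (2 * h + s) (by linarith) 0,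
    tl (288 * C2 / D) s hs 2, tl (900 * C2 / ζ) 1 one_pos 2] with σ hσ0 hL t1 t2 t3 t4 t5 t6 t7 t8 t9 t10 t11
  intro b0 hb0 δ ε c g Q z hδ hε hcc hg hQ hz
  have hσ : 0 < σ := hσ0
  set Λ : ℝ := Real.log (1 / σ) with hΛ
  have hL8 : 8 ≤ Λ := le_trans (le_trans (le_max_left _ _) (le_max_left _ _)) hL
  have hLa : |Real.log a1| ≤ Λ := le_trans (le_trans (le_max_right _ _) (le_max_left _ _)) hL
  have hLC1 : 1 / C1 ≤ Λ := le_trans (le_trans (le_max_left _ _) (le_max_right _ _)) hL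
  have hLC2 : 1 / C2 ≤ Λ := le_trans (le_trans (le_max_right _ _) (le_max_right _ _)) hL
  have hL0 : 0 < Λ := by linarith
  have hlogσ : Real.log σ = -Λ := by rw [hΛ, one_div, Real.log_inv]; ring
  have hσ1 : σ ≤ 1 := by
    by_contra hcon
    have := Real.log_pos (not_le.1 hcon)
    linarith
  have R : ∀ x y : ℝ, σ ^ x * σ ^ y = σ ^ (x + y) := fun x y => (Real.rpow_add hσ x y).symm
  have pos : ∀ x : ℝ, 0 < σ ^ x := fun x => Real.rpow_pos_of_pos hσ x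
  have hσ2 : σ ^ 2 = σ ^ (2 : ℝ) := by rw [← Real.rpow_natCast]; norm_num
  -- δ
  have fδ : δ = D * σ ^ (2 - s) := by rw [hδ, Real.mul_rpow (by norm_num) hσ.le]
  have hδ0 : 0 < δ := by rw [fδ]; exact mul_pos hD0 (pos _)
  have fε : ε = E0 * σ ^ (2 + 2 * h + 2 * s) := by
    have e1 : δ ^ 2 = D ^ 2 * σ ^ (4 - 2 * s) := by
      rw [fδ, mul_pow, sq (σ ^ (2 - s)), R]; ring_nf
    have e2 : σ ^ (6 + 2 * h) = σ ^ (2 + 2 * h + 2 * s) * σ ^ (4 - 2 * s) := by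
      rw [R]; ring_nf
    have := (pos (4 - 2 * s)).ne'
    rw [hε, e1, e2, hE0]
    field_simp
  have hε0 : 0 < ε := by rw [fε]; exact mul_pos hE (pos _)
  have fc : c = c0 * σ ^ (6 + 2 * h) := by
    have hdd : (d : ℝ) ≠ 0 := by linarith
    rw [hcc, hε, hc0]
    field_simp
    ring
  have hc' : 0 < c := by rw [fc]; exact mul_pos hc (pos _)
  -- g
  have hlg : Real.log (1 / (a1 * σ ^ 2)) = 2 * Λ - Real.log a1 := by
    rw [one_div, Real.log_inv, Real.log_mul ha.ne' (by positivity), Real.log_pow, hlogσ]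
    push_cast; ring
  have hlg1 : Λ ≤ Real.log (1 / (a1 * σ ^ 2)) := by
    rw [hlg]; linarith [le_abs_self (Real.log a1)]
  have hlg2 : Real.log (1 / (a1 * σ ^ 2)) ≤ 3 * Λ := by
    rw [hlg]; linarith [neg_abs_le (Real.log a1)]
  have g1 : C2 * Λ ^ 2 ≤ g := by
    rw [hg]; exact mul_le_mul_of_nonneg_left (pow_le_pow_left₀ hL0.le hlg1 2) hC2.le
  have g2 : g ≤ 9 * C2 * Λ ^ 2 := by
    rw [hg]
    refine le_trans (mul_le_mul_of_nonneg_left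
      (pow_le_pow_left₀ (le_trans hL0.le hlg1) hlg2 2) hC2.le) (le_of_eq (by ring))
  have g3 : 1 ≤ g := le_trans (x3 (by linarith) hLC2 hC2) g1
  have g0 : 0 < g := by linarith
  -- Q
  have hlδ : Real.log (1 / δ) = (2 - s) * (Λ - Real.log 32) := by
    rw [one_div, Real.log_inv, hδ, Real.log_rpow (by positivity), Real.log_mul (by norm_num) hσ.ne',
      hlogσ]
    ring
  have hl32 : Real.log 32 < 3.5 := by
    have : (32 : ℝ) = 2 ^ (5 : ℕ) := by norm_num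
    rw [this, Real.log_pow]
    have := Real.log_two_lt_d9
    push_cast; linarith
  have hl32' : 0 < Real.log 32 := Real.log_pos (by norm_num)
  have l1 : Λ ≤ Real.log (1 / δ) := by rw [hlδ]; exact x1 hs hs1 hl32 hL8
  have l2 : Real.log (1 / δ) ≤ 2 * Λ := by rw [hlδ]; exact x2 hs hl32' hl32 hL8
  have k1' : δ ^ (-κ) ≤ σ ^ (-(κ * (2 - s))) := by
    rw [fδ, Real.mul_rpow hD0.le (pos _).le, ← Real.rpow_mul hσ.le]
    have e1 : D ^ (-κ) ≤ 1 := Real.rpow_le_one_of_one_le_of_nonpos hD1 (by linarith)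
    have e2 : (2 - s) * -κ = -(κ * (2 - s)) := by ring
    rw [e2]
    exact x4 e1 (pos (-(κ * (2 - s))))
  have hδh : δ ≤ 1 / 2 := by
    rw [pow_zero, mul_one] at t4
    rw [fδ]; linarith
  have k2' : 1 ≤ δ ^ (-κ) :=
    Real.one_le_rpow_of_pos_of_le_one_of_nonpos hδ0 (by linarith) (by linarith)
  have hΛ7 : Λ ^ 7 ≤ Real.log (1 / δ) ^ 7 := pow_le_pow_left₀ hL0.le l1 7
  have hΛ7' : Real.log (1 / δ) ^ 7 ≤ 128 * Λ ^ 7 := by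
    exact le_trans (pow_le_pow_left₀ (le_trans hL0.le l1) l2 7) (le_of_eq (by ring))
  have Q1 : 1 ≤ Q := by
    rw [hQ]; exact x5 k2' (by linarith) hΛ7 hC1 hLC1
  have Q2 : Q ≤ C1 * (σ ^ (-(κ * (2 - s))) * (128 * Λ ^ 7)) := by
    rw [hQ]
    exact mul_le_mul_of_nonneg_left (mul_le_mul k1' hΛ7' (pow_nonneg (le_trans hL0.le l1) 7) (pos _).le) hC1.le
  -- δ / ε
  have fq : δ / ε = D / E0 * σ ^ (-3 * s - 2 * h) := by
    have e1 : σ ^ (2 - s) = σ ^ (-3 * s - 2 * h) * σ ^ (2 + 2 * h + 2 * s) := by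
      rw [R]; ring_nf
    have := (pos (2 + 2 * h + 2 * s)).ne'
    rw [fδ, fε, e1]
    field_simp
  have B1 : σ ^ 2 * Q * (δ / ε) ^ 2 ≤ A1 * σ ^ p1 * Λ ^ 7 := by
    have e1 : σ ^ 2 * (C1 * (σ ^ (-(κ * (2 - s))) * (128 * Λ ^ 7))) * (δ / ε) ^ 2 =
        A1 * σ ^ p1 * Λ ^ 7 := by
      rw [fq, hσ2, mul_pow, sq (σ ^ (-3 * s - 2 * h)), R, hA1]
      have : σ ^ p1 = σ ^ (2 : ℝ) * σ ^ (-(κ * (2 - s))) *
          σ ^ (-3 * s - 2 * h + (-3 * s - 2 * h)) := by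
        rw [R, R, hp1]; ring_nf
      rw [this]; ring
    rw [← e1]
    exact mul_le_mul_of_nonneg_right (mul_le_mul_of_nonneg_left Q2 (by positivity))
      (by positivity)
  have B2 : σ ^ 2 / ε = E0⁻¹ * σ ^ (-2 * h - 2 * s) := by
    have e1 : σ ^ 2 = σ ^ (-2 * h - 2 * s) * σ ^ (2 + 2 * h + 2 * s) := by
      rw [R, hσ2]; ring_nf
    have := (pos (2 + 2 * h + 2 * s)).ne'
    rw [fε, e1]
    field_simp
  have z0 : 0 < z := by rw [hz]; positivity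
  have z1 : z ≤ 1 := by rw [hz, div_le_one g0]; linarith
  refine ⟨⟨hσ, hσ1, Q1, g3, z0, z1, ?_, ?_, ?_⟩, hδh, ?_, ?_, ?_, ?_, ?_, ?_, ?_⟩
  · calc 10 ^ 5 * (σ ^ 2 * Q * (δ / ε) ^ 2) ≤ 10 ^ 5 * (A1 * σ ^ p1 * Λ ^ 7) := by
          exact mul_le_mul_of_nonneg_left B1 (by norm_num)
      _ = 10 ^ 5 * A1 * σ ^ p1 * Λ ^ 7 := by ring
      _ ≤ 1 := t1
  · have e0 : z ^ 2 = ζ ^ 2 / g ^ 2 := by rw [hz, div_pow]
    rw [e0, le_div_iff₀ (by positivity)]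
    have e1 : 10 ^ 9 * (σ ^ 2 * Q * (δ / ε) ^ 2) * (σ ^ 2 / ε) * g ^ 3 * g ^ 2 ≤
        10 ^ 9 * (A1 * σ ^ p1 * Λ ^ 7) * (σ ^ 2 / ε) * (9 * C2 * Λ ^ 2) ^ 5 := by
      have e2 : g ^ 5 ≤ (9 * C2 * Λ ^ 2) ^ 5 := pow_le_pow_left₀ g0.le g2 5
      have e3 : (σ ^ 2 * Q * (δ / ε) ^ 2) * g ^ 5 ≤
          (A1 * σ ^ p1 * Λ ^ 7) * (9 * C2 * Λ ^ 2) ^ 5 :=
        mul_le_mul B1 e2 (by positivity) (by have := pos p1; positivity)
      have e4 : 0 ≤ σ ^ 2 / ε := by positivity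
      calc 10 ^ 9 * (σ ^ 2 * Q * (δ / ε) ^ 2) * (σ ^ 2 / ε) * g ^ 3 * g ^ 2
          = 10 ^ 9 * (σ ^ 2 / ε) * ((σ ^ 2 * Q * (δ / ε) ^ 2) * g ^ 5) := by ring
        _ ≤ 10 ^ 9 * (σ ^ 2 / ε) * ((A1 * σ ^ p1 * Λ ^ 7) * (9 * C2 * Λ ^ 2) ^ 5) :=
          mul_le_mul_of_nonneg_left e3 (by positivity)
        _ = _ := by ring
    refine le_trans e1 ?_
    rw [B2]
    have e5 : σ ^ (p1 - 2 * h - 2 * s) = σ ^ p1 * σ ^ (-2 * h - 2 * s) := by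
      rw [R]; ring_nf
    rw [e5] at t2
    have e6 : 10 ^ 9 * (A1 * σ ^ p1 * Λ ^ 7) * (E0⁻¹ * σ ^ (-2 * h - 2 * s)) *
        (9 * C2 * Λ ^ 2) ^ 5 = (10 ^ 9 * A2 * (9 * C2) ^ 5 / ζ ^ 2 *
          (σ ^ p1 * σ ^ (-2 * h - 2 * s)) * Λ ^ 17) * ζ ^ 2 := by
      rw [hA2]; field_simp
    rw [e6]
    refine le_trans (mul_le_mul_of_nonneg_right t2 (sq_nonneg ζ)) (le_of_eq (one_mul _))
  · have e1 : Real.sqrt (σ ^ (40 * d + 400 : ℕ)) = σ ^ (20 * (d : ℝ) + 200) := by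
      rw [Real.sqrt_eq_rpow, ← Real.rpow_natCast σ (40 * d + 400), ← Real.rpow_mul hσ.le]
      congr 1; push_cast; ring
    have e2 : (b0 + 1 : ℝ) ≤ 2 * σ ^ (-(4 * d : ℝ)) := by
      have : 1 ≤ σ ^ (-(4 * d : ℝ)) :=
        Real.one_le_rpow_of_pos_of_le_one_of_nonpos hσ hσ1 (by linarith)
      linarith
    have e3 : (b0 + 1 : ℝ) ^ 5 ≤ 32 * σ ^ (-(20 * d : ℝ)) := by
      have e4 := pow_le_pow_left₀ (by positivity) e2 5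
      have e5 : (2 * σ ^ (-(4 * d : ℝ))) ^ 5 = 32 * σ ^ (-(20 * d : ℝ)) := by
        rw [mul_pow, ← Real.rpow_natCast (σ ^ (-(4 * d : ℝ))) 5, ← Real.rpow_mul hσ.le]
        norm_num; ring_nf
      linarith
    have e6 : M * (σ ^ (8 + 4 * h + 2 * s) * (Λ ^ 2)⁻¹) ≤ c * ε * z := by
      have e7 : ζ / (9 * C2 * Λ ^ 2) ≤ z := by
        rw [hz]; exact div_le_div_of_nonneg_left hζ.le g0 g2
      have e8 : c * ε = c0 * E0 * σ ^ (8 + 4 * h + 2 * s) := by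
        have : σ ^ (8 + 4 * h + 2 * s) = σ ^ (6 + 2 * h) * σ ^ (2 + 2 * h + 2 * s) := by
          rw [R]; ring_nf
        rw [fc, fε, this]; ring
      calc M * (σ ^ (8 + 4 * h + 2 * s) * (Λ ^ 2)⁻¹)
          = c * ε * (ζ / (9 * C2 * Λ ^ 2)) := by rw [e8, hM]; field_simp
        _ ≤ c * ε * z := mul_le_mul_of_nonneg_left e7 (by positivity)
    have e9 := pow_le_pow_left₀ (by have := pos (8 + 4 * h + 2 * s); positivity) e6 12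
    refine le_trans ?_ e9
    have e10 : (M * (σ ^ (8 + 4 * h + 2 * s) * (Λ ^ 2)⁻¹)) ^ 12 =
        M ^ 12 * σ ^ (96 + 48 * h + 24 * s) * (Λ ^ 24)⁻¹ := by
      have : σ ^ (96 + 48 * h + 24 * s) = (σ ^ (8 + 4 * h + 2 * s)) ^ 12 := by
        rw [← Real.rpow_natCast (σ ^ (8 + 4 * h + 2 * s)) 12, ← Real.rpow_mul hσ.le]
        congr 1; push_cast; ring
      rw [this]; field_simp
    have e11 : 10 ^ 9 * 32 * (M ^ 12)⁻¹ * σ ^ (200 : ℝ) * Λ ^ 24 ≤ σ ^ (96 + 48 * h + 24 * s) :=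
      mk hσ t3 (by ring)
    have e12 : σ ^ (-(20 * d : ℝ)) * σ ^ (20 * (d : ℝ) + 200) = σ ^ (200 : ℝ) := by
      rw [R]; ring_nf
    rw [e10, e1]
    have hΛ24 : (0 : ℝ) < Λ ^ 24 := by positivity
    have hM12 : (0 : ℝ) < M ^ 12 := by positivity
    calc 10 ^ 9 * (b0 + 1 : ℝ) ^ 5 * σ ^ (20 * (d : ℝ) + 200)
        ≤ 10 ^ 9 * (32 * σ ^ (-(20 * d : ℝ))) * σ ^ (20 * (d : ℝ) + 200) := by
          have := pos (20 * (d : ℝ) + 200)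
          exact mul_le_mul_of_nonneg_right (mul_le_mul_of_nonneg_left e3 (by norm_num)) this.le
      _ = 10 ^ 9 * 32 * σ ^ (200 : ℝ) := by rw [← e12]; ring
      _ = M ^ 12 * (10 ^ 9 * 32 * (M ^ 12)⁻¹ * σ ^ (200 : ℝ) * Λ ^ 24) * (Λ ^ 24)⁻¹ := by
          field_simp
      _ ≤ M ^ 12 * σ ^ (96 + 48 * h + 24 * s) * (Λ ^ 24)⁻¹ :=
          mul_le_mul_of_nonneg_right (mul_le_mul_of_nonneg_left e11 hM12.le)
            (by positivity)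
  · have := mk (r := 2 - s) (t := 2 + 2 * h + 2 * s) hσ t5 (by ring)
    rw [pow_zero, mul_one] at this
    rw [fε, fδ]
    have e : E0 * σ ^ (2 + 2 * h + 2 * s) = D * (E0 / D * σ ^ (2 + 2 * h + 2 * s)) := by
      field_simp
    rw [e]; exact mul_le_mul_of_nonneg_left this hD0.le
  · rw [pow_zero, mul_one] at t6
    rw [fc]; exact t6
  · have := mk (r := 2 - s) (t := 2) hσ t7 (by ring)
    rw [pow_zero, mul_one] at this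
    rw [hσ2, fδ]
    have e : a1 * σ ^ (2 : ℝ) = D * (a1 / D * σ ^ (2 : ℝ)) := by field_simp
    rw [e]; exact mul_le_mul_of_nonneg_left this hD0.le
  · have := mk (r := 2) (t := 2 + 2 * h) hσ t8 (by ring)
    have e1 : 100 * (C3 * σ ^ (2 + 2 * h)) * g ≤
        100 * (C3 * σ ^ (2 + 2 * h)) * (9 * C2 * Λ ^ 2) := by
      have := pos (2 + 2 * h)
      exact mul_le_mul_of_nonneg_left g2 (by positivity)
    have e2 : 100 * (C3 * σ ^ (2 + 2 * h)) * (9 * C2 * Λ ^ 2) =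
        900 * C3 * C2 / ζ * σ ^ (2 + 2 * h) * Λ ^ 2 * ζ := by field_simp; ring
    rw [e2] at e1
    rw [hσ2]
    exact le_trans e1 (mul_le_mul_of_nonneg_right this hζ.le)
  · have := mk (r := 2 - s) (t := 2 + 2 * h) hσ t9 (by ring)
    rw [pow_zero, mul_one] at this
    rw [fδ]
    have e : 32 * (C3 * σ ^ (2 + 2 * h)) = D * (32 * C3 / D * σ ^ (2 + 2 * h)) := by field_simp
    rw [e]; exact mul_le_mul_of_nonneg_left this hD0.le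
  · have := mk (r := 2 - s) (t := 2) hσ t10 (by ring)
    rw [fδ]
    have e1 : 32 * g * σ ^ 2 ≤ 32 * (9 * C2 * Λ ^ 2) * σ ^ 2 := x7 g2 (by positivity)
    have e : 32 * (9 * C2 * Λ ^ 2) * σ ^ 2 = D * (288 * C2 / D * σ ^ (2 : ℝ) * Λ ^ 2) := by
      rw [hσ2]; field_simp; ring
    rw [e] at e1
    exact le_trans e1 (mul_le_mul_of_nonneg_left this hD0.le)
  · rw [Real.rpow_one] at t11
    have e1 : 100 * g * σ ≤ 100 * (9 * C2 * Λ ^ 2) * σ := x8 g2 hσ.le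
    have e : 100 * (9 * C2 * Λ ^ 2) * σ = 900 * C2 / ζ * σ * Λ ^ 2 * ζ := by field_simp; ring
    rw [e] at e1
    have := mul_le_mul_of_nonneg_right t11 hζ.le
    linarith

end Pool.Agent.T3h43.AC
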